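import Pool.Agent.J4H95.NA.Lattice

/-!
# Counting the lattices with a short vector
-/

namespace Pool.Agent.J4H95.NA

open Classical in
/-- For a given `g` there are few `α` such that `α g` is small modulo `X`. -/
theorem card_small {X : ℕ} (hX : 0 < X) {t g : ℕ} (hg : 0 < g) (hgt : g ≤ t) :
    ((Finset.range X).filter (fun α : ℕ => ∃ r : ℤ, |r| ≤ t ∧ (X : ℤ) ∣ α * g - r)).card ≤
      3 * t := by
  set d := Nat.gcd g X with hd
  have hd0 : 0 < d := Nat.gcd_pos_of_pos_left _ hg
  obtain ⟨g', hg'⟩ : d ∣ g := Nat.gcd_dvd_left _ _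
  obtain ⟨X', hX'⟩ : d ∣ X := Nat.gcd_dvd_right _ _
  have hcop : Nat.Coprime g' X' := by
    have h1 : d * Nat.gcd g' X' = d * 1 := by
      rw [← Nat.gcd_mul_left, ← hg', ← hX', mul_one]
    exact Nat.eq_of_mul_eq_mul_left hd0 h1
  have hX'0 : 0 < X' := Nat.pos_of_ne_zero (by rintro rfl; simp at hX'; omega)
  have hr : ∀ α : ℕ, ∃ r : ℤ, (∃ r : ℤ, |r| ≤ t ∧ (X : ℤ) ∣ α * g - r) →
      |r| ≤ (t / d : ℕ) ∧ (X : ℤ) ∣ α * g - d * r := by
    intro α
    by_cases h : ∃ r : ℤ, |r| ≤ t ∧ (X : ℤ) ∣ α * g - r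
    · obtain ⟨r, h1, h2⟩ := h
      have h3 : (d : ℤ) ∣ r := by
        have h4 : (d : ℤ) ∣ α * g - r := (Int.natCast_dvd_natCast.mpr (Nat.gcd_dvd_right _ _)).trans
          h2
        have h5 : (d : ℤ) ∣ (α : ℤ) * g :=
          (Int.natCast_dvd_natCast.mpr (Nat.gcd_dvd_left _ _)).mul_left _
        have := dvd_sub h5 h4
        simpa using this
      obtain ⟨r', rfl⟩ := h3
      refine ⟨r', fun _ => ⟨?_, h2⟩⟩
      rw [abs_mul, Nat.abs_cast] at h1
      have h6 : r'.natAbs * d ≤ t := by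
        have : (d : ℤ) * r'.natAbs ≤ t := by rw [Int.natCast_natAbs]; exact h1
        have h7 : ((d * r'.natAbs : ℕ) : ℤ) ≤ t := by push_cast; simpa using this
        rw [mul_comm]
        exact_mod_cast h7
      have h8 : r'.natAbs ≤ t / d := (Nat.le_div_iff_mul_le hd0).mpr h6
      rw [Int.abs_eq_natAbs]
      exact_mod_cast h8
    · exact ⟨0, fun h' => absurd h' h⟩
  choose ρ hρ using hr
  have hcard := Finset.card_le_card_of_injOn
    (s := (Finset.range X).filter (fun α : ℕ => ∃ r : ℤ, |r| ≤ t ∧ (X : ℤ) ∣ α * g - r))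
    (t := Finset.Icc (-((t / d : ℕ) : ℤ)) ((t / d : ℕ) : ℤ) ×ˢ Finset.range d)
    (fun α => (ρ α, α / X')) ?_ ?_
  · refine hcard.trans ?_
    rw [Finset.card_product, Int.card_Icc, Finset.card_range]
    have h1 : (((t / d : ℕ) : ℤ) + 1 - -((t / d : ℕ) : ℤ)).toNat = 2 * (t / d) + 1 := by omega
    rw [h1]
    have h2 : t / d * d ≤ t := Nat.div_mul_le_self t d
    have h3 : d ≤ t := (Nat.le_of_dvd hg (Nat.gcd_dvd_left _ _)).trans hgt
    nlinarith
  · intro α hα
    simp only [Finset.coe_filter, Finset.mem_range, Set.mem_ofPred_eq] at hα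
    have h1 := hρ α hα.2
    simp only [Finset.coe_product, Set.mem_prod, Finset.mem_coe, Finset.mem_Icc, Finset.mem_range]
    refine ⟨abs_le.mp h1.1, ?_⟩
    rw [Nat.div_lt_iff_lt_mul hX'0, ← hX']
    exact hα.1
  · intro α hα β hβ h
    simp only [Finset.coe_filter, Finset.mem_range, Set.mem_ofPred_eq] at hα hβ
    simp only [Prod.mk.injEq] at h
    have h1 := (hρ α hα.2).2
    have h2 := (hρ β hβ.2).2
    rw [h.1] at h1
    have h3 : (X : ℤ) ∣ ((α : ℤ) - β) * g := by
      have := dvd_sub h1 h2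
      have e : (α : ℤ) * g - d * ρ β - (β * g - d * ρ β) = ((α : ℤ) - β) * g := by ring
      rwa [e] at this
    have h4 : (X' : ℤ) ∣ (α : ℤ) - β := by
      rw [hX', hg'] at h3
      push_cast at h3
      have e : ((α : ℤ) - β) * (d * g') = d * (((α : ℤ) - β) * g') := by ring
      rw [e] at h3
      have h5 := Int.dvd_of_mul_dvd_mul_left (by exact_mod_cast hd0.ne') h3
      exact (Int.isCoprime_iff_gcd_eq_one.mpr (by
        rw [Int.gcd_natCast_natCast]; exact hcop.symm)).dvd_of_dvd_mul_right h5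
    have h6 : α % X' = β % X' := by
      have h7 : (α : ℤ) % X' = β % X' :=
        Int.emod_eq_emod_iff_emod_sub_eq_zero.mpr (Int.emod_eq_zero_of_dvd h4)
      exact_mod_cast h7
    rw [← Nat.div_add_mod α X', ← Nat.div_add_mod β X', h.2, h6]

open Classical in
theorem card_l1_le {X : ℕ} (hX : 0 < X) {t : ℕ} (ht : t < X) :
    ((Finset.range X).filter (fun α : ℕ => l1 X α ≤ t)).card ≤ 3 * t * t := by
  have hsub : (Finset.range X).filter (fun α : ℕ => l1 X α ≤ t) ⊆
      (Finset.Icc 1 t).biUnion (fun g : ℕ =>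
        (Finset.range X).filter (fun α : ℕ => ∃ r : ℤ, |r| ≤ t ∧ (X : ℤ) ∣ α * g - r)) := by
    intro α hα
    rw [Finset.mem_filter] at hα
    obtain ⟨g, h, h0, hl⟩ := l1_spec X α
    have hle : nm X α g h ≤ t := by rw [hl]; exact_mod_cast hα.2
    unfold nm at hle
    rw [max_le_iff] at hle
    have hg0 : g ≠ 0 := by
      rintro rfl
      rw [mul_zero, zero_add, abs_mul, Nat.abs_cast] at hle
      have hh : h ≠ 0 := fun hh => h0 ⟨rfl, hh⟩
      have h1 : 1 ≤ |h| := Int.one_le_abs hh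
      have h2 : (X : ℤ) * 1 ≤ X * |h| := mul_le_mul_of_nonneg_left h1 (Int.natCast_nonneg _)
      omega
    rw [Finset.mem_biUnion]
    refine ⟨g.natAbs, ?_, ?_⟩
    · rw [Finset.mem_Icc]
      have h1 := Int.natAbs_pos.mpr hg0
      have h2 := hle.2
      rw [Int.abs_eq_natAbs] at h2
      omega
    · rw [Finset.mem_filter]
      refine ⟨hα.1, ?_⟩
      rcases le_or_gt 0 g with hg | hg
      · refine ⟨α * g + X * h, hle.1, ⟨-h, ?_⟩⟩
        rw [Int.natCast_natAbs, abs_of_nonneg hg]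
        ring
      · refine ⟨-(α * g + X * h), by rw [abs_neg]; exact hle.1, ⟨h, ?_⟩⟩
        rw [Int.natCast_natAbs, abs_of_neg hg]
        ring
  calc _ ≤ _ := Finset.card_le_card hsub
    _ ≤ ∑ g ∈ Finset.Icc 1 t, ((Finset.range X).filter
        (fun α : ℕ => ∃ r : ℤ, |r| ≤ t ∧ (X : ℤ) ∣ α * g - r)).card := Finset.card_biUnion_le
    _ ≤ ∑ _g ∈ Finset.Icc 1 t, 3 * t := by
        apply Finset.sum_le_sum
        intro g hg
        rw [Finset.mem_Icc] at hg
        exact card_small hX hg.1 hg.2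
    _ = 3 * t * t := by
        rw [Finset.sum_const, Nat.card_Icc]
        simp
        ring

/-- telescoping -/
theorem inv_eq_sum {l T : ℕ} (hl : 0 < l) (hT : l ≤ T) :
    (1 : ℝ) / l = (∑ t ∈ Finset.Ico l T, (1 : ℝ) / (t * (t + 1))) + 1 / T := by
  induction T, hT using Nat.le_induction with
  | base => simp
  | succ T hT ih =>
      rw [Finset.sum_Ico_succ_top hT, ih]
      have h1 : (0 : ℝ) < T := by exact_mod_cast (by omega : 0 < T)
      push_cast
      field_simp
      ring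

open Classical in
/-- The sum of the inverses of the lengths of the shortest vectors. -/
theorem sum_inv_le {X : ℕ} (hX : 0 < X) :
    ∑ α ∈ Finset.range X, (1 : ℝ) / l1 X (α : ℤ) ≤ 4 * Real.sqrt X := by
  set T := Nat.sqrt X with hTdef
  have hT : 0 < T := Nat.sqrt_pos.mpr hX
  have hTR : (0 : ℝ) < T := by exact_mod_cast hT
  have hXT : X ≤ T * T + T + T := Nat.sqrt_le_add X
  have hTX : T * T ≤ X := Nat.sqrt_le X
  have hl : ∀ α : ℕ, l1 X (α : ℤ) ≤ T := fun α => Nat.le_sqrt.mpr (l1_sq_le hX _)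
  have hl0 : ∀ α : ℕ, 0 < l1 X (α : ℤ) := fun α => l1_pos (by exact_mod_cast hX)
  have h1 : ∀ α : ℕ, (1 : ℝ) / l1 X (α : ℤ) =
      (∑ t ∈ Finset.Ico 1 T, if l1 X (α : ℤ) ≤ t then (1 : ℝ) / (t * (t + 1)) else 0) + 1 / T := by
    intro α
    rw [inv_eq_sum (hl0 α) (hl α), ← Finset.sum_filter]
    congr 1
    apply Finset.sum_congr _ fun _ _ => rfl
    ext t
    simp only [Finset.mem_Ico, Finset.mem_filter]
    have := hl0 α
    omega
  calc ∑ α ∈ Finset.range X, (1 : ℝ) / l1 X (α : ℤ)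
      = (∑ α ∈ Finset.range X, ∑ t ∈ Finset.Ico 1 T,
          if l1 X (α : ℤ) ≤ t then (1 : ℝ) / (t * (t + 1)) else 0) + X * (1 / T) := by
        rw [Finset.sum_congr rfl fun α _ => h1 α, Finset.sum_add_distrib, Finset.sum_const,
          Finset.card_range, nsmul_eq_mul]
    _ = (∑ t ∈ Finset.Ico 1 T, (((Finset.range X).filter
          (fun α : ℕ => l1 X α ≤ t)).card : ℝ) * (1 / (t * (t + 1)))) + X * (1 / T) := by
        rw [Finset.sum_comm]
        congr 1
        apply Finset.sum_congr rfl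
        intro t _
        rw [← Finset.sum_filter, Finset.sum_const, nsmul_eq_mul]
    _ ≤ (∑ _t ∈ Finset.Ico 1 T, (3 : ℝ)) + X * (1 / T) := by
        gcongr with t ht
        rw [Finset.mem_Ico] at ht
        have ht0 : (0 : ℝ) < t := by exact_mod_cast ht.1
        have h2 := card_l1_le hX (t := t) (by nlinarith)
        have h3 : (((Finset.range X).filter (fun α : ℕ => l1 X α ≤ t)).card : ℝ) ≤ 3 * t * t := by
          exact_mod_cast h2
        calc _ ≤ 3 * (t : ℝ) * t * (1 / (t * (t + 1))) :=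
              mul_le_mul_of_nonneg_right h3 (by positivity)
          _ = 3 * (t / (t + 1)) := by field_simp
          _ ≤ 3 * 1 := by
              apply mul_le_mul_of_nonneg_left _ (by norm_num)
              rw [div_le_one (by positivity)]
              linarith
          _ = 3 := by norm_num
    _ = 3 * ((T : ℝ) - 1) + X * (1 / T) := by
        rw [Finset.sum_const, Nat.card_Ico, nsmul_eq_mul, Nat.cast_sub hT]
        push_cast
        ring
    _ ≤ 3 * ((T : ℝ) - 1) + (T + 2) := by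
        gcongr
        rw [mul_one_div, div_le_iff₀ hTR]
        have : (X : ℝ) ≤ T * T + T + T := by exact_mod_cast hXT
        nlinarith
    _ ≤ 4 * T := by linarith
    _ ≤ 4 * Real.sqrt X := by
        gcongr
        apply Real.le_sqrt_of_sq_le
        rw [sq]
        exact_mod_cast hTX

end Pool.Agent.J4H95.NA
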