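import Mathlib

/-!
# A short interval contains an index which avoids finitely many primes

(The argument is the one for the theorem of Crittenden and Vanden Eynden.)
-/

namespace Pool.Agent.J4H95.NA

open Polynomial

/-- A combination of `D` geometric sequences which vanishes at `0, …, D - 1` vanishes. -/
theorem vanish {ι : Type} (s : Finset ι) (c l : ι → ℂ) (f : ℕ → ℂ)
    (hf : ∀ k, f k = ∑ i ∈ s, c i * l i ^ k) (h : ∀ k, k < s.card → f k = 0) (k : ℕ) :
    f k = 0 := by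
  let Q : ℂ[X] := ∏ i ∈ s, (X - C (l i))
  have hQm : Q.Monic := monic_prod_of_monic _ _ fun i _ => monic_X_sub_C _
  have hQd : Q.natDegree = s.card := by
    simp only [Q]
    rw [natDegree_prod_of_monic _ _ fun i _ => monic_X_sub_C _]
    simp
  have hQ0 : ∀ i ∈ s, Q.eval (l i) = 0 := by
    intro i hi
    simp only [Q]
    rw [eval_prod]
    exact Finset.prod_eq_zero hi (by simp)
  have hrec : ∀ k, ∑ j ∈ Finset.range (s.card + 1), Q.coeff j * f (k + j) = 0 := by
    intro k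
    have h1 : ∑ j ∈ Finset.range (s.card + 1), Q.coeff j * f (k + j) =
        ∑ i ∈ s, c i * l i ^ k * Q.eval (l i) := by
      simp only [hf, Finset.mul_sum]
      rw [Finset.sum_comm]
      apply Finset.sum_congr rfl
      intro i _
      rw [eval_eq_sum_range, hQd, Finset.mul_sum]
      apply Finset.sum_congr rfl
      intro j _
      ring
    rw [h1]
    exact Finset.sum_eq_zero fun i hi => by rw [hQ0 i hi, mul_zero]
  induction k using Nat.strong_induction_on with
  | _ k ih =>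
    by_cases hk : k < s.card
    · exact h k hk
    · have h1 := hrec (k - s.card)
      rw [Finset.sum_range_succ, Finset.sum_eq_zero, zero_add] at h1
      · have h2 : Q.coeff s.card = 1 := by rw [← hQd]; exact hQm
        rw [h2, one_mul, Nat.sub_add_cancel (by omega)] at h1
        exact h1
      · intro j hj
        rw [Finset.mem_range] at hj
        rw [ih _ (by omega), mul_zero]

/-- If no prime of the finite set `P` divides both `a` and `b`, then there is a number
`k < 2 ^ |P|` such that no prime of `P` divides `a + k b`. -/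
theorem exists_avoid (P : Finset ℕ) (hP : ∀ p ∈ P, p.Prime) (a b : ℤ)
    (hab : ∀ p ∈ P, ¬ ((p : ℤ) ∣ a ∧ (p : ℤ) ∣ b)) :
    ∃ k : ℕ, k < 2 ^ P.card ∧ ∀ p ∈ P, ¬ (p : ℤ) ∣ a + k * b := by
  classical
  -- some `k` is good
  have hex : ∃ k : ℕ, ∀ p ∈ P, ¬ (p : ℤ) ∣ a + k * b := by
    refine ⟨∏ p ∈ P.filter (fun p : ℕ => ¬ (p : ℤ) ∣ a), p, ?_⟩
    intro p hp hdvd
    have hpp := Nat.prime_iff_prime_int.mp (hP p hp)
    by_cases ha : (p : ℤ) ∣ a
    · have h1 : (p : ℤ) ∣ ((∏ p ∈ P.filter (fun p : ℕ => ¬ (p : ℤ) ∣ a), p : ℕ) : ℤ) * b :=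
        (dvd_add_right ha).mp hdvd
      rcases hpp.dvd_or_dvd h1 with h2 | h2
      · rw [Int.natCast_dvd_natCast, Prime.dvd_finsetProd_iff (hP p hp).prime] at h2
        obtain ⟨r, hr, h3⟩ := h2
        rw [Finset.mem_filter] at hr
        have h4 := (Nat.prime_dvd_prime_iff_eq (hP p hp) (hP r hr.1)).mp h3
        subst h4
        exact hr.2 ha
      · exact hab p hp ⟨ha, h2⟩
    · have h1 : (p : ℤ) ∣ ((∏ p ∈ P.filter (fun p : ℕ => ¬ (p : ℤ) ∣ a), p : ℕ) : ℤ) := by
        rw [Int.natCast_dvd_natCast]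
        exact Finset.dvd_prod_of_mem (fun p => p) (Finset.mem_filter.mpr ⟨hp, ha⟩)
      exact ha ((dvd_add_left (h1.mul_right b)).mp hdvd)
  by_contra hcon
  push Not at hcon
  obtain ⟨k0, hk0⟩ := hex
  let ζ : ℕ → ℂ := fun p => Complex.exp (2 * Real.pi * Complex.I / p)
  have hζ : ∀ p ∈ P, IsPrimitiveRoot (ζ p) p := fun p hp =>
    Complex.isPrimitiveRoot_exp p (hP p hp).ne_zero
  have hζ0 : ∀ p, ζ p ≠ 0 := fun p => Complex.exp_ne_zero _
  let f : ℕ → ℂ := fun k => ∏ p ∈ P, (1 + (-(ζ p ^ a) * (ζ p ^ b) ^ k))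
  have hval : ∀ (p : ℕ) (k : ℕ), 1 + (-(ζ p ^ a) * (ζ p ^ b) ^ k) = 1 - ζ p ^ (a + k * b) := by
    intro p k
    rw [zpow_add₀ (hζ0 p), mul_comm (k : ℤ) b, zpow_mul, zpow_natCast]
    ring
  have hzero : ∀ k, f k = 0 ↔ ∃ p ∈ P, (p : ℤ) ∣ a + k * b := by
    intro k
    simp only [f]
    rw [Finset.prod_eq_zero_iff]
    constructor
    · rintro ⟨p, hp, h⟩
      rw [hval, sub_eq_zero] at h
      exact ⟨p, hp, ((hζ p hp).zpow_eq_one_iff_dvd _).mp h.symm⟩
    · rintro ⟨p, hp, h⟩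
      refine ⟨p, hp, ?_⟩
      rw [hval, sub_eq_zero]
      exact (((hζ p hp).zpow_eq_one_iff_dvd _).mpr h).symm
  have hf : ∀ k, f k = ∑ S ∈ P.powerset, (∏ p ∈ S, -(ζ p ^ a)) * (∏ p ∈ S, ζ p ^ b) ^ k := by
    intro k
    simp only [f]
    rw [Finset.prod_one_add]
    apply Finset.sum_congr rfl
    intro S _
    rw [Finset.prod_mul_distrib, Finset.prod_pow]
  have h1 := vanish P.powerset _ _ f hf (fun k hk => by
    rw [Finset.card_powerset] at hk
    exact (hzero k).mpr (hcon k hk)) k0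
  obtain ⟨p, hp, h2⟩ := (hzero k0).mp h1
  exact hk0 p hp h2

end Pool.Agent.J4H95.NA
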