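import Mathlib

/-!
# The `N`-adic complexity of infinite and of finite sequences: definitions
-/

namespace Pool.Agent.J4H95.NA

open scoped ENNReal

/-- The `N`-adic integer `∑ b_i N^i` is equal to the fraction `f / g`, which is in lowest terms
and has a positive denominator: `g · ∑ b_i N^i = f` holds modulo every power of `N`. -/
def IsFrac (N : ℕ) (b : ℕ → Fin N) (f g : ℤ) : Prop :=
  0 < g ∧ IsCoprime f g ∧
    ∀ k : ℕ, (N : ℤ) ^ k ∣ g * (∑ i ∈ Finset.range k, ((b i : ℕ) : ℤ) * (N : ℤ) ^ i) - f

/-- The `N`-adic complexity `log_N max(|f|, |g|)` of an infinite sequence whose `N`-adic number is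
`f / g` in lowest terms; it is `∞` if the `N`-adic number of the sequence is not rational. -/
noncomputable def lam (N : ℕ) (b : ℕ → Fin N) : ℝ≥0∞ :=
  ⨅ (f : ℤ) (g : ℤ) (_ : IsFrac N b f g), ENNReal.ofReal (Real.logb N (max |(f : ℝ)| |(g : ℝ)|))

/-- The `N`-adic complexity of a finite sequence: the minimum of the complexities of all infinite
sequences which extend it. -/
noncomputable def lamFin {N n : ℕ} (s : Fin n → Fin N) : ℝ≥0∞ :=
  ⨅ (b : ℕ → Fin N) (_ : ∀ i : Fin n, b i = s i), lam N b

/-- The average of the `N`-adic complexity over all finite sequences of length `n`. -/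
noncomputable def Efin (N n : ℕ) : ℝ := (∑ s : Fin n → Fin N, (lamFin s).toReal) / (N : ℝ) ^ n

end Pool.Agent.J4H95.NA
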