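import Pool.Agent.J4H95.NA.Main

/-!
# The minimum in the definition of the complexity of a finite sequence, and a uniform bound
-/

namespace Pool.Agent.J4H95.NA

open scoped ENNReal

variable {N n : ℕ}

/-- The minimum is attained, and it is finite. -/
theorem exists_min (hN : 2 ≤ N) (s : Fin n → Fin N) :
    ∃ b : ℕ → Fin N, (∀ i : Fin n, b i = s i) ∧ lam N b = lamFin s ∧ lam N b ≠ ⊤ := by
  classical
  have hN1 : (1 : ℝ) < N := by exact_mod_cast (by omega : 1 < N)
  have hfin : lamFin s ≠ ⊤ := ne_top_of_le_ne_top ENNReal.ofReal_ne_top (lamFin_le hN s)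
  have hex : ∃ t : ℕ, ∃ (b : ℕ → Fin N) (f g : ℤ), (∀ i : Fin n, b i = s i) ∧
      IsFrac N b f g ∧ max |f| |g| = t := by
    by_contra hcon
    push Not at hcon
    apply hfin
    unfold lamFin lam
    refine iInf₂_eq_top.mpr fun b hb => iInf_eq_top.mpr fun f => iInf_eq_top.mpr fun g =>
      iInf_eq_top.mpr fun h => ?_
    exact absurd (by rw [Int.toNat_of_nonneg ((abs_nonneg f).trans (le_max_left _ _))])
      (hcon (max |f| |g|).toNat b f g hb h)
  obtain ⟨b, f, g, hb, hfr, ht⟩ := Nat.find_spec hex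
  have hlow : ENNReal.ofReal (Real.logb N (Nat.find hex)) ≤ lamFin s := by
    unfold lamFin lam
    refine le_iInf fun b' => le_iInf fun hb' => le_iInf fun f' => le_iInf fun g' =>
      le_iInf fun h' => ?_
    apply ENNReal.ofReal_le_ofReal
    have h1 : Nat.find hex ≤ (max |f'| |g'|).toNat := Nat.find_min' hex ⟨b', f', g', hb', h', by
      rw [Int.toNat_of_nonneg ((abs_nonneg f').trans (le_max_left _ _))]⟩
    have h2 : ((Nat.find hex : ℕ) : ℤ) ≤ max |f'| |g'| := by
      have := Int.toNat_of_nonneg ((abs_nonneg f').trans (le_max_left |f'| |g'|))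
      omega
    have h3 : ((Nat.find hex : ℕ) : ℝ) ≤ max |(f' : ℝ)| |(g' : ℝ)| := by exact_mod_cast h2
    have h4 : 0 < Nat.find hex := by
      have h5 : 0 < |g| := abs_pos.mpr hfr.1.ne'
      have h6 : |g| ≤ max |f| |g| := le_max_right _ _
      omega
    exact Real.logb_le_logb_of_le hN1 (by exact_mod_cast h4) h3
  have hupp : lam N b ≤ ENNReal.ofReal (Real.logb N (Nat.find hex)) := by
    have h1 : lam N b ≤ ENNReal.ofReal (Real.logb N (max |(f : ℝ)| |(g : ℝ)|)) := by
      unfold lam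
      exact (iInf_le _ f).trans ((iInf_le _ g).trans (iInf_le _ hfr))
    have h2 : max |(f : ℝ)| |(g : ℝ)| = (Nat.find hex : ℕ) := by exact_mod_cast ht
    rwa [h2] at h1
  have hle : lamFin s ≤ lam N b := by
    unfold lamFin
    exact iInf₂_le b hb
  have heq : lam N b = lamFin s := le_antisymm (hupp.trans hlow) hle
  exact ⟨b, hb, heq, by rw [heq]; exact hfin⟩

theorem abs_le_four (hN : 2 ≤ N) (n : ℕ) : |Efin N n - n / 2| ≤ 4 := by
  obtain ⟨h1, h2⟩ := main hN n
  have hN1 : (1 : ℝ) < N := by exact_mod_cast (by omega : 1 < N)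
  have hN2 : (2 : ℝ) ≤ N := by exact_mod_cast hN
  have hN0 : (0 : ℝ) < N := by linarith
  have hK : (2 : ℝ) ^ N.primeFactors.card ≤ N := by
    have h3 : 2 ^ N.primeFactors.card ≤ ∏ p ∈ N.primeFactors, p :=
      Finset.pow_card_le_prod _ _ _ fun p hp => (Nat.prime_of_mem_primeFactors hp).two_le
    have h4 : ∏ p ∈ N.primeFactors, p ≤ N := Nat.le_of_dvd (by omega) (Nat.prod_primeFactors_dvd N)
    exact_mod_cast h3.trans h4
  have h5 : Real.logb N 4 ≤ 4 := by
    rw [Real.logb_le_iff_le_rpow hN1 (by norm_num)]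
    have : (4 : ℝ) ≤ (N : ℝ) ^ (4 : ℕ) := by nlinarith [sq_nonneg ((N : ℝ) ^ 2 - 4), sq_nonneg (N : ℝ)]
    rw [show (4 : ℝ) = ((4 : ℕ) : ℝ) by norm_num, Real.rpow_natCast]
    push_cast
    exact this
  have h6 : Real.logb N (4 * 2 ^ N.primeFactors.card + 2) ≤ 4 := by
    rw [Real.logb_le_iff_le_rpow hN1 (by positivity)]
    have h7 : (4 : ℝ) * 2 ^ N.primeFactors.card + 2 ≤ (N : ℝ) ^ (4 : ℕ) := by
      have h8 : (4 : ℝ) * 2 ^ N.primeFactors.card + 2 ≤ 5 * N := by linarith
      have h9 : (8 : ℝ) ≤ (N : ℝ) ^ 3 := by nlinarith [sq_nonneg ((N : ℝ) - 2)]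
      nlinarith
    refine h7.trans (le_of_eq ?_)
    rw [show (4 : ℝ) = ((4 : ℕ) : ℝ) by norm_num, Real.rpow_natCast]
  rw [abs_le]
  constructor <;> linarith

end Pool.Agent.J4H95.NA
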