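import Pool.Agent.J4H95.NA.Cover

/-!
# Short vectors in the lattices of the pairs `(f, g)` with `f ≡ α g` modulo `X`
-/

namespace Pool.Agent.J4H95.NA

/-- the norm of the vector `(α g + X h, g)` -/
def nm (X α g h : ℤ) : ℤ := max |α * g + X * h| |g|

theorem nm_nonneg (X α g h : ℤ) : 0 ≤ nm X α g h := (abs_nonneg _).trans (le_max_left _ _)

theorem nm_pos {X α g h : ℤ} (hX : 0 < X) (h0 : ¬ (g = 0 ∧ h = 0)) : 0 < nm X α g h := by
  unfold nm
  by_cases hg : g = 0
  · subst hg
    have hh : h ≠ 0 := fun h1 => h0 ⟨rfl, h1⟩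
    rw [mul_zero, zero_add, lt_max_iff]
    left
    exact abs_pos.mpr (mul_ne_zero hX.ne' hh)
  · rw [lt_max_iff]
    exact Or.inr (abs_pos.mpr hg)

theorem exists_nm (X α : ℤ) : ∃ t : ℕ, ∃ g h : ℤ, ¬ (g = 0 ∧ h = 0) ∧ nm X α g h = t :=
  ⟨(nm X α 1 0).toNat, 1, 0, by simp, by rw [Int.toNat_of_nonneg (nm_nonneg _ _ _ _)]⟩

open Classical in
/-- the norm of a shortest nonzero vector -/
noncomputable def l1 (X α : ℤ) : ℕ := Nat.find (exists_nm X α)

theorem l1_spec (X α : ℤ) : ∃ g h : ℤ, ¬ (g = 0 ∧ h = 0) ∧ nm X α g h = l1 X α := by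
  classical
  exact Nat.find_spec (exists_nm X α)

theorem l1_le {X α g h : ℤ} (h0 : ¬ (g = 0 ∧ h = 0)) : (l1 X α : ℤ) ≤ nm X α g h := by
  classical
  have h1 : l1 X α ≤ (nm X α g h).toNat := Nat.find_min' _ ⟨g, h, h0, by
    rw [Int.toNat_of_nonneg (nm_nonneg _ _ _ _)]⟩
  have h2 := Int.toNat_of_nonneg (nm_nonneg X α g h)
  omega

theorem l1_pos {X α : ℤ} (hX : 0 < X) : 0 < l1 X α := by
  obtain ⟨g, h, h0, h1⟩ := l1_spec X α
  have := nm_pos (α := α) hX h0
  omega

/-- The shortest vector, by Dirichlet's theorem. -/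
theorem l1_sq_le {X : ℕ} (hX : 0 < X) (α : ℤ) : l1 X α * l1 X α ≤ X := by
  have hQ : 0 < Nat.sqrt X := Nat.sqrt_pos.mpr hX
  obtain ⟨j, k, hk, hkQ, h1⟩ := Real.exists_int_int_abs_mul_sub_le ((α : ℝ) / X) hQ
  have hXR : (0 : ℝ) < X := by exact_mod_cast hX
  have hQR : (0 : ℝ) < Nat.sqrt X + 1 := by positivity
  have h2 : |(α * k + X * (-j) : ℝ)| ≤ X / (Nat.sqrt X + 1) := by
    have e : (α * k + X * (-j) : ℝ) = X * (k * (α / X) - j) := by field_simp; ring
    rw [e, abs_mul, abs_of_pos hXR]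
    calc (X : ℝ) * |(k : ℝ) * ((α : ℝ) / X) - j| ≤ X * (1 / (Nat.sqrt X + 1)) :=
          mul_le_mul_of_nonneg_left h1 hXR.le
      _ = X / (Nat.sqrt X + 1) := by ring
  have h3 : (X : ℝ) < (Nat.sqrt X + 1) * (Nat.sqrt X + 1) := by
    exact_mod_cast Nat.lt_succ_sqrt X
  have h4 : |(α * k + X * (-j) : ℝ)| < Nat.sqrt X + 1 := by
    refine lt_of_le_of_lt h2 ?_
    rw [div_lt_iff₀ hQR]
    exact h3
  have h5 : |α * k + X * (-j)| < Nat.sqrt X + 1 := by exact_mod_cast h4
  have h6 : nm X α k (-j) ≤ Nat.sqrt X := by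
    unfold nm
    rw [max_le_iff, abs_of_pos hk]
    exact ⟨by omega, hkQ⟩
  have h7 := l1_le (X := X) (α := α) (g := k) (h := -j) (fun h => hk.ne' h.1)
  have h8 : l1 X α ≤ Nat.sqrt X := by omega
  exact Nat.le_sqrt.mp h8

theorem exists_round (a b : ℤ) (hb : b ≠ 0) : ∃ k : ℤ, 2 * |a + k * b| ≤ |b| := by
  refine ⟨-round ((a : ℚ) / b), ?_⟩
  have h1 := abs_sub_round ((a : ℚ) / b)
  have hbQ : (b : ℚ) ≠ 0 := by exact_mod_cast hb
  have h2 : ((a + -round ((a : ℚ) / b) * b : ℤ) : ℚ) = b * ((a : ℚ) / b - round ((a : ℚ) / b)) := by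
    push_cast
    field_simp
    ring
  have h3 : |((a + -round ((a : ℚ) / b) * b : ℤ) : ℚ)| ≤ |(b : ℚ)| * (1 / 2) := by
    rw [h2, abs_mul]
    exact mul_le_mul_of_nonneg_left h1 (abs_nonneg _)
  have h4 : 2 * |((a + -round ((a : ℚ) / b) * b : ℤ) : ℚ)| ≤ |(b : ℚ)| := by linarith
  exact_mod_cast h4

/-- There is a vector with second component prime to `N` which is not much longer than
`X / l1`. -/
theorem exists_coprime {X : ℕ} (hX : 0 < X) (α : ℤ) {N : ℕ} (hN : 2 ≤ N) :
    ∃ f g : ℤ, 0 < g ∧ IsCoprime g (N : ℤ) ∧ (X : ℤ) ∣ g * α - f ∧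
      2 * (max |f| g) * l1 X α ≤ (2 * 2 ^ N.primeFactors.card + 1) * X := by
  obtain ⟨g1, h1, h0, hl⟩ := l1_spec X α
  set l : ℕ := l1 X α with hldef
  have hlpos : 0 < l := l1_pos (by exact_mod_cast hX)
  have hlX : (l : ℤ) * l ≤ X := by exact_mod_cast l1_sq_le hX α
  -- the shortest vector is primitive
  have hcop : IsCoprime g1 h1 := by
    rw [Int.isCoprime_iff_gcd_eq_one]
    by_contra hd
    have hd0 : Int.gcd g1 h1 ≠ 0 := by
      rw [Ne, Int.gcd_eq_zero_iff]
      exact h0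
    obtain ⟨g', hg'⟩ := Int.gcd_dvd_left g1 h1
    obtain ⟨h', hh'⟩ := Int.gcd_dvd_right g1 h1
    have hd2 : 2 ≤ Int.gcd g1 h1 := by omega
    generalize Int.gcd g1 h1 = d at hg' hh' hd2 hd0
    have h2 : ¬ (g' = 0 ∧ h' = 0) := by
      rintro ⟨rfl, rfl⟩
      apply h0
      rw [hg', hh']
      simp
    have h3 := l1_le (X := X) (α := α) h2
    have h4 : nm X α g1 h1 = d * nm X α g' h' := by
      unfold nm
      rw [hg', hh']
      have e1 : α * ((d : ℤ) * g') + X * ((d : ℤ) * h') = d * (α * g' + X * h') := by ring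
      rw [e1, abs_mul, abs_mul, Nat.abs_cast, mul_max_of_nonneg _ _ (Int.natCast_nonneg d)]
    rw [h4] at hl
    have h5 : (2 : ℤ) ≤ d := by exact_mod_cast hd2
    have h6 : 0 < (l : ℤ) := by exact_mod_cast hlpos
    nlinarith
  obtain ⟨u, v, huv⟩ := hcop
  -- second basis vector `(g2, h2) = (-v, u)`
  have hmain : ∃ g2 h2 : ℤ, g1 * h2 - h1 * g2 = 1 ∧ 2 * nm X α g2 h2 * l ≤ 3 * X := by
    unfold nm at hl
    set f1 : ℤ := α * g1 + X * h1 with hf1
    have hf1l : |f1| ≤ l := by rw [← hl]; exact le_max_left _ _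
    have hg1l : |g1| ≤ l := by rw [← hl]; exact le_max_right _ _
    have hdet : ∀ g2 h2 : ℤ, g1 * h2 - h1 * g2 = 1 →
        f1 * g2 - (α * g2 + X * h2) * g1 = -X := by
      intro g2 h2 h
      rw [hf1]
      linear_combination (-(X : ℤ)) * h
    rcases le_total |g1| |f1| with hc | hc
    · -- `|f1| = l`
      have hf1l' : |f1| = l := by rw [← hl, max_eq_left hc]
      have hf10 : f1 ≠ 0 := by
        intro h
        rw [h, abs_zero] at hf1l'
        omega
      obtain ⟨k, hk⟩ := exists_round (α * (-v) + X * u) f1 hf10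
      refine ⟨-v + k * g1, u + k * h1, by linear_combination huv, ?_⟩
      have e1 : α * (-v + k * g1) + X * (u + k * h1) = α * (-v) + X * u + k * f1 := by
        rw [hf1]; ring
      have hd := hdet (-v + k * g1) (u + k * h1) (by linear_combination huv)
      unfold nm
      rw [e1] at hd ⊢
      rw [hf1l'] at hk
      set F : ℤ := α * (-v) + X * u + k * f1
      set G : ℤ := -v + k * g1
      have h2 : |f1 * G| ≤ X + |F| * |g1| := by
        have : f1 * G = -X + F * g1 := by linear_combination hd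
        rw [this]
        refine (abs_add_le _ _).trans ?_
        rw [abs_neg, abs_mul, Nat.abs_cast]
      rw [abs_mul, hf1l'] at h2
      have h3 : |F| * |g1| ≤ |F| * l := mul_le_mul_of_nonneg_left hg1l (abs_nonneg _)
      have h4 : 2 * |F| * l ≤ l * l := mul_le_mul_of_nonneg_right hk (Int.natCast_nonneg _)
      rcases le_total |G| |F| with hm | hm
      · rw [max_eq_left hm]
        nlinarith
      · rw [max_eq_right hm]
        nlinarith
    · -- `|g1| = l`
      have hg1l' : |g1| = l := by rw [← hl, max_eq_right hc]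
      have hg10 : g1 ≠ 0 := by
        intro h
        rw [h, abs_zero] at hg1l'
        omega
      obtain ⟨k, hk⟩ := exists_round (-v) g1 hg10
      refine ⟨-v + k * g1, u + k * h1, by linear_combination huv, ?_⟩
      have e1 : α * (-v + k * g1) + X * (u + k * h1) = α * (-v) + X * u + k * f1 := by
        rw [hf1]; ring
      have hd := hdet (-v + k * g1) (u + k * h1) (by linear_combination huv)
      unfold nm
      rw [e1] at hd ⊢
      rw [hg1l'] at hk
      set F : ℤ := α * (-v) + X * u + k * f1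
      set G : ℤ := -v + k * g1
      have h2 : |F * g1| ≤ X + |f1| * |G| := by
        have : F * g1 = X + f1 * G := by linear_combination -hd
        rw [this]
        refine (abs_add_le _ _).trans ?_
        rw [abs_mul, Nat.abs_cast]
      rw [abs_mul, hg1l'] at h2
      have h3 : |f1| * |G| ≤ l * |G| := mul_le_mul_of_nonneg_right hf1l (abs_nonneg _)
      have h4 : 2 * |G| * l ≤ l * l := mul_le_mul_of_nonneg_right hk (Int.natCast_nonneg _)
      rcases le_total |G| |F| with hm | hm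
      · rw [max_eq_left hm]
        nlinarith
      · rw [max_eq_right hm]
        nlinarith
  obtain ⟨g2, h2, hb, hn⟩ := hmain
  obtain ⟨k, hk, hgood⟩ := exists_avoid N.primeFactors
    (fun p hp => Nat.prime_of_mem_primeFactors hp) g2 g1 (by
      rintro p hp ⟨ha, hb'⟩
      have hpp := Nat.prime_iff_prime_int.mp (Nat.prime_of_mem_primeFactors hp)
      have h3 : (p : ℤ) ∣ 1 := by
        rw [← hb]
        exact dvd_sub (hb'.mul_right _) (ha.mul_left _)
      exact hpp.not_isUnit (isUnit_of_dvd_one h3))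
  -- the vector
  set G : ℤ := g2 + k * g1 with hG
  set H : ℤ := h2 + k * h1 with hH
  have hGN : IsCoprime G (N : ℤ) := by
    rw [Int.isCoprime_iff_gcd_eq_one]
    by_contra hne
    obtain ⟨p, hp, hpd⟩ := Nat.exists_prime_and_dvd hne
    have h3 : (p : ℤ) ∣ G := (Int.natCast_dvd_natCast.mpr hpd).trans (Int.gcd_dvd_left _ _)
    have h4 : (p : ℤ) ∣ (N : ℤ) := (Int.natCast_dvd_natCast.mpr hpd).trans (Int.gcd_dvd_right _ _)
    exact hgood p (Nat.mem_primeFactors.mpr ⟨hp, Int.natCast_dvd_natCast.mp h4, by omega⟩) h3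
  have hG0 : G ≠ 0 := by
    intro h
    rw [h, isCoprime_zero_left] at hGN
    have := Int.isUnit_iff.mp hGN
    omega
  have hnm : nm X α G H ≤ nm X α g2 h2 + k * l := by
    rw [← hl]
    unfold nm
    have hk0 : (0 : ℤ) ≤ k := Int.natCast_nonneg k
    rw [max_le_iff]
    constructor
    · have e1 : α * G + X * H = (α * g2 + X * h2) + k * (α * g1 + X * h1) := by
        rw [hG, hH]; ring
      rw [e1]
      refine (abs_add_le _ _).trans (add_le_add (le_max_left _ _) ?_)
      rw [abs_mul, Nat.abs_cast]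
      exact mul_le_mul_of_nonneg_left (le_max_left _ _) hk0
    · rw [hG]
      refine (abs_add_le _ _).trans (add_le_add (le_max_right _ _) ?_)
      rw [abs_mul, Nat.abs_cast]
      exact mul_le_mul_of_nonneg_left (le_max_right _ _) hk0
  have hbound : 2 * nm X α G H * l ≤ (2 * 2 ^ N.primeFactors.card + 1) * X := by
    have h3 : (k : ℤ) + 1 ≤ 2 ^ N.primeFactors.card := by exact_mod_cast hk
    have h4 : (0 : ℤ) < l := by exact_mod_cast hlpos
    have h5 : nm X α G H * l ≤ (nm X α g2 h2 + k * l) * l :=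
      mul_le_mul_of_nonneg_right hnm h4.le
    have h6 : (k : ℤ) * (l * l) ≤ k * X := mul_le_mul_of_nonneg_left hlX (Int.natCast_nonneg k)
    have h7 : ((k : ℤ) + 1) * X ≤ 2 ^ N.primeFactors.card * X :=
      mul_le_mul_of_nonneg_right h3 (Int.natCast_nonneg X)
    nlinarith
  rcases lt_or_gt_of_ne hG0 with hneg | hpos
  · refine ⟨-(α * G + X * H), -G, by omega, hGN.neg_left, ?_, ?_⟩
    · refine ⟨H, ?_⟩
      ring
    · rw [abs_neg]
      have : max |α * G + X * H| (-G) = nm X α G H := by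
        unfold nm
        rw [abs_of_neg hneg]
      rw [this]
      exact hbound
  · refine ⟨α * G + X * H, G, hpos, hGN, ?_, ?_⟩
    · refine ⟨-H, ?_⟩
      ring
    · have : max |α * G + X * H| G = nm X α G H := by
        unfold nm
        rw [abs_of_pos hpos]
      rw [this]
      exact hbound

end Pool.Agent.J4H95.NA
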