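import Pool.Agent.J4H95.NA.Defs
import Pool.Agent.J4H95.NA.Count

/-!
# The average `N`-adic complexity of the finite sequences
-/

namespace Pool.Agent.J4H95.NA

open scoped ENNReal

variable {N n : ℕ}

/-- the number with the digits `s` -/
def num (s : Fin n → Fin N) : ℕ := ∑ i : Fin n, (s i : ℕ) * N ^ (i : ℕ)

theorem coprime_of_isFrac {b : ℕ → Fin N} {f g : ℤ} (h : IsFrac N b f g) :
    IsCoprime g (N : ℤ) := by
  obtain ⟨_, hfg, hk⟩ := h
  rw [Int.isCoprime_iff_gcd_eq_one]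
  by_contra hne
  obtain ⟨p, hp, hpd⟩ := Nat.exists_prime_and_dvd hne
  have h3 : (p : ℤ) ∣ g := (Int.natCast_dvd_natCast.mpr hpd).trans (Int.gcd_dvd_left _ _)
  have h4 : (p : ℤ) ∣ (N : ℤ) := (Int.natCast_dvd_natCast.mpr hpd).trans (Int.gcd_dvd_right _ _)
  have h5 := hk 1
  rw [pow_one] at h5
  have h6 : (p : ℤ) ∣ f := by
    have := dvd_sub (h3.mul_right (∑ i ∈ Finset.range 1, ((b i : ℕ) : ℤ) * (N : ℤ) ^ i))
      (h4.trans h5)
    simpa using this
  have h7 : IsUnit (p : ℤ) := hfg.isUnit_of_dvd' h6 h3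
  exact (Nat.prime_iff_prime_int.mp hp).not_isUnit h7

theorem num_eq {s : Fin n → Fin N} {b : ℕ → Fin N} (hb : ∀ i : Fin n, b i = s i) :
    (∑ i ∈ Finset.range n, ((b i : ℕ) : ℤ) * (N : ℤ) ^ i) = num s := by
  unfold num
  rw [Finset.sum_range]
  push_cast
  apply Finset.sum_congr rfl
  intro i _
  rw [hb]

theorem dvd_of_isFrac {s : Fin n → Fin N} {b : ℕ → Fin N} (hb : ∀ i : Fin n, b i = s i)
    {f g : ℤ} (h : IsFrac N b f g) : ((N ^ n : ℕ) : ℤ) ∣ g * num s - f := by
  have := h.2.2 n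
  rw [num_eq hb] at this
  push_cast
  exact this

/-- Every admissible fraction belongs to an extension of the finite sequence. -/
theorem exists_extension (hN : 2 ≤ N) (s : Fin n → Fin N) {f g : ℤ} (hg : 0 < g)
    (hfg : IsCoprime f g) (hgN : IsCoprime g (N : ℤ)) (h : ((N ^ n : ℕ) : ℤ) ∣ g * num s - f) :
    ∃ b : ℕ → Fin N, (∀ i : Fin n, b i = s i) ∧ IsFrac N b f g := by
  have hN0 : (0 : ℤ) < N := by omega
  -- digits
  have hdig : ∀ c : ℤ, ∃ d : Fin N, (N : ℤ) ∣ c - g * (d : ℕ) := by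
    intro c
    obtain ⟨u, v, huv⟩ := hgN
    have h1 := Int.emod_nonneg (c * u) hN0.ne'
    have h2 := Int.emod_lt_of_pos (c * u) hN0
    refine ⟨⟨((c * u) % N).toNat, by omega⟩, ?_⟩
    have h3 : ((((c * u) % N).toNat : ℕ) : ℤ) = (c * u) % N := Int.toNat_of_nonneg h1
    simp only [h3]
    have h4 := Int.emod_add_mul_ediv (c * u) N
    have h5 : (c * u) % N = c * u - N * (c * u / N) := by linarith
    rw [h5]
    refine ⟨v * c + g * (c * u / N), ?_⟩
    linear_combination (-c) * huv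
  choose dig hdig using hdig
  obtain ⟨c0, hc0⟩ := h
  let st : ℕ → ℤ := fun j => Nat.rec (-c0) (fun _ c => (c - g * (dig c : ℕ)) / N) j
  have hst0 : st 0 = -c0 := rfl
  have hst : ∀ j, (N : ℤ) * st (j + 1) = st j - g * (dig (st j) : ℕ) := by
    intro j
    have e : st (j + 1) = (st j - g * (dig (st j) : ℕ)) / N := rfl
    rw [e]
    exact Int.mul_ediv_cancel' (hdig (st j))
  let b : ℕ → Fin N := fun i => if h : i < n then s ⟨i, h⟩ else dig (st (i - n))
  have hb : ∀ i : Fin n, b i = s i := by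
    intro i
    simp only [b, dif_pos i.2]
  have hbn : ∀ j, b (n + j) = dig (st j) := by
    intro j
    simp only [b]
    rw [dif_neg (by omega), Nat.add_sub_cancel_left]
  have hlarge : ∀ j, g * (∑ i ∈ Finset.range (n + j), ((b i : ℕ) : ℤ) * (N : ℤ) ^ i) - f =
      -((N : ℤ) ^ (n + j) * st j) := by
    intro j
    induction j with
    | zero =>
        rw [Nat.add_zero, num_eq hb, hc0, hst0]
        push_cast
        ring
    | succ j ih =>
        rw [← Nat.add_assoc, Finset.sum_range_succ, hbn]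
        have h1 := hst j
        have h2 : (N : ℤ) ^ (n + j + 1) * st (j + 1) = N ^ (n + j) * (N * st (j + 1)) := by ring
        rw [h2, h1]
        linear_combination ih
  refine ⟨b, hb, hg, hfg, ?_⟩
  intro k
  rcases Nat.lt_or_ge k n with hk | hk
  · have h1 := hlarge 0
    rw [Nat.add_zero] at h1
    have h2 : (N : ℤ) ^ k ∣ ∑ i ∈ Finset.Ico k n, ((b i : ℕ) : ℤ) * (N : ℤ) ^ i := by
      apply Finset.dvd_sum
      intro i hi
      rw [Finset.mem_Ico] at hi
      exact (pow_dvd_pow _ hi.1).mul_left _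
    have h3 : (N : ℤ) ^ k ∣ g * (∑ i ∈ Finset.range n, ((b i : ℕ) : ℤ) * (N : ℤ) ^ i) - f := by
      rw [h1, dvd_neg]
      exact (pow_dvd_pow _ hk.le).mul_right _
    rw [← Finset.sum_range_add_sum_Ico _ hk.le] at h3
    have h4 := dvd_sub h3 (h2.mul_left g)
    have e : g * (∑ i ∈ Finset.range k, ((b i : ℕ) : ℤ) * (N : ℤ) ^ i +
        ∑ i ∈ Finset.Ico k n, ((b i : ℕ) : ℤ) * (N : ℤ) ^ i) - f -
        g * ∑ i ∈ Finset.Ico k n, ((b i : ℕ) : ℤ) * (N : ℤ) ^ i =
        g * (∑ i ∈ Finset.range k, ((b i : ℕ) : ℤ) * (N : ℤ) ^ i) - f := by ring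
    rwa [e] at h4
  · obtain ⟨j, rfl⟩ := Nat.exists_eq_add_of_le hk
    rw [hlarge, dvd_neg]
    exact dvd_mul_right _ _

theorem l1_le_of_dvd {X α f g : ℤ} (hg : 0 < g) (h : X ∣ g * α - f) :
    (l1 X α : ℤ) ≤ max |f| |g| := by
  obtain ⟨c, hc⟩ := h
  have h1 := l1_le (X := X) (α := α) (g := g) (h := -c) (fun h => hg.ne' h.1)
  have e : nm X α g (-c) = max |f| |g| := by
    unfold nm
    have : α * g + X * (-c) = f := by linarith
    rw [this]
  rwa [e] at h1

/-- lower bound -/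
theorem le_lamFin (hN : 2 ≤ N) (s : Fin n → Fin N) :
    ENNReal.ofReal (Real.logb N (l1 ((N ^ n : ℕ) : ℤ) (num s))) ≤ lamFin s := by
  unfold lamFin lam
  refine le_iInf fun b => le_iInf fun hb => le_iInf fun f => le_iInf fun g => le_iInf fun h => ?_
  apply ENNReal.ofReal_le_ofReal
  have h1 := l1_le_of_dvd h.1 (dvd_of_isFrac hb h)
  have h2 : (l1 ((N ^ n : ℕ) : ℤ) (num s) : ℝ) ≤ max |(f : ℝ)| |(g : ℝ)| := by
    exact_mod_cast h1
  have h3 : 0 < l1 ((N ^ n : ℕ) : ℤ) (num s) :=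
    l1_pos (by exact_mod_cast pow_pos (by omega : 0 < N) n)
  exact Real.logb_le_logb_of_le (by exact_mod_cast (by omega : 1 < N)) (by exact_mod_cast h3) h2

/-- upper bound -/
theorem lamFin_le (hN : 2 ≤ N) (s : Fin n → Fin N) :
    lamFin s ≤ ENNReal.ofReal (Real.logb N ((2 * 2 ^ N.primeFactors.card + 1) / 2 * (N : ℝ) ^ n /
      l1 ((N ^ n : ℕ) : ℤ) (num s))) := by
  have hX : 0 < N ^ n := pow_pos (by omega) n
  obtain ⟨f, g, hg, hgN, hd, hb⟩ := exists_coprime hX (num s : ℤ) hN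
  set L := l1 ((N ^ n : ℕ) : ℤ) (num s) with hL
  have hLpos : 0 < L := l1_pos (by exact_mod_cast hX)
  -- divide by the greatest common divisor
  obtain ⟨f', hf'⟩ := Int.gcd_dvd_left f g
  obtain ⟨g', hg'⟩ := Int.gcd_dvd_right f g
  have hd0 : 0 < Int.gcd f g := Int.gcd_pos_of_ne_zero_right _ hg.ne'
  have hcop : IsCoprime f' g' := by
    have h1 : Int.gcd (f / (Int.gcd f g : ℤ)) (g / (Int.gcd f g : ℤ)) = 1 :=
      Int.gcd_ediv_gcd_ediv_gcd hd0
    have e1 : f / (Int.gcd f g : ℤ) = f' := by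
      conv_lhs => lhs; rw [hf']
      exact Int.mul_ediv_cancel_left _ (by exact_mod_cast hd0.ne')
    have e2 : g / (Int.gcd f g : ℤ) = g' := by
      conv_lhs => lhs; rw [hg']
      exact Int.mul_ediv_cancel_left _ (by exact_mod_cast hd0.ne')
    rw [e1, e2] at h1
    exact Int.isCoprime_iff_gcd_eq_one.mpr h1
  generalize Int.gcd f g = d at hf' hg' hd0
  have hdZ : (0 : ℤ) < d := by exact_mod_cast hd0
  have hg'0 : 0 < g' := by
    rw [hg'] at hg
    exact (mul_pos_iff_of_pos_left hdZ).mp hg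
  have hgN' : IsCoprime g' (N : ℤ) := by
    rw [hg'] at hgN
    exact hgN.of_mul_left_right
  have hdN : IsCoprime (d : ℤ) (N : ℤ) := by
    rw [hg'] at hgN
    exact hgN.of_mul_left_left
  have hd' : ((N ^ n : ℕ) : ℤ) ∣ g' * num s - f' := by
    have e : g * (num s : ℤ) - f = d * (g' * num s - f') := by
      rw [hf', hg']; ring
    rw [e] at hd
    have hc : IsCoprime ((N ^ n : ℕ) : ℤ) (d : ℤ) := by
      push_cast
      exact (hdN.symm).pow_left
    exact hc.dvd_of_dvd_mul_left hd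
  obtain ⟨b, hbs, hfrac⟩ := exists_extension hN s hg'0 hcop hgN' hd'
  have h1 : lamFin s ≤ ENNReal.ofReal (Real.logb N (max |(f' : ℝ)| |(g' : ℝ)|)) := by
    unfold lamFin lam
    exact (iInf₂_le b hbs).trans ((iInf_le _ f').trans ((iInf_le _ g').trans (iInf_le _ hfrac)))
  refine h1.trans (ENNReal.ofReal_le_ofReal ?_)
  have hmaxpos : 0 < max |(f' : ℝ)| |(g' : ℝ)| := by
    rw [lt_max_iff]
    right
    exact abs_pos.mpr (by exact_mod_cast hg'0.ne')
  refine Real.logb_le_logb_of_le (by exact_mod_cast (by omega : 1 < N)) hmaxpos ?_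
  have hLR : (0 : ℝ) < L := by exact_mod_cast hLpos
  rw [le_div_iff₀ hLR]
  have h2 : max |f'| |g'| ≤ max |f| g := by
    have h3 : (1 : ℤ) ≤ d := by omega
    apply max_le_max
    · rw [hf', abs_mul, Nat.abs_cast]
      exact le_mul_of_one_le_left (abs_nonneg _) h3
    · rw [hg', abs_of_pos hg'0]
      exact le_mul_of_one_le_left hg'0.le h3
  have h3 : 2 * (max |f'| |g'|) * L ≤ (2 * 2 ^ N.primeFactors.card + 1) * ((N ^ n : ℕ) : ℤ) := by
    refine le_trans ?_ hb
    have : (0 : ℤ) ≤ L := Int.natCast_nonneg _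
    nlinarith
  have h4 : 2 * (max |(f' : ℝ)| |(g' : ℝ)|) * L ≤
      (2 * 2 ^ N.primeFactors.card + 1) * ((N : ℝ) ^ n) := by
    have := (Int.cast_le (R := ℝ)).mpr h3
    push_cast at this
    exact this
  linarith

/-- the sum of the logarithms of the lengths of the shortest vectors -/
theorem sum_log_ge {X : ℕ} (hX : 0 < X) : (X : ℝ) * (Real.log X / 2 - Real.log 4) ≤
    ∑ α ∈ Finset.range X, Real.log (l1 X (α : ℤ)) := by
  have hXR : (0 : ℝ) < X := by exact_mod_cast hX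
  have hs : 0 < Real.sqrt X := Real.sqrt_pos.mpr hXR
  have hl0 : ∀ α : ℕ, (0 : ℝ) < l1 X (α : ℤ) := fun α => by
    exact_mod_cast l1_pos (X := (X : ℤ)) (α := α) (by exact_mod_cast hX)
  have h1 : ∀ α : ℕ, Real.log X / 2 - Real.log 4 - Real.log (l1 X (α : ℤ)) ≤
      Real.sqrt X / 4 * (1 / l1 X (α : ℤ)) - 1 := by
    intro α
    have h2 := Real.log_le_sub_one_of_pos (x := Real.sqrt X / 4 * (1 / l1 X (α : ℤ)))
      (by have := hl0 α; positivity)
    rw [Real.log_mul (by positivity) (by have := hl0 α; positivity),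
      Real.log_div hs.ne' (by norm_num), Real.log_sqrt hXR.le, one_div, Real.log_inv] at h2
    rw [one_div]
    linarith
  have h2 := Finset.sum_le_sum (s := Finset.range X) fun α _ => h1 α
  rw [Finset.sum_sub_distrib, Finset.sum_sub_distrib, Finset.sum_sub_distrib, ← Finset.mul_sum]
    at h2
  simp only [Finset.sum_const, Finset.card_range, nsmul_eq_mul, mul_one] at h2
  have h3 := mul_le_mul_of_nonneg_left (sum_inv_le hX) (by positivity : 0 ≤ Real.sqrt X / 4)
  have h4 : Real.sqrt X / 4 * (4 * Real.sqrt X) = X := by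
    have := Real.mul_self_sqrt hXR.le
    linarith
  linarith

/-- summation over the finite sequences -/
theorem sum_seq (F : ℕ → ℝ) :
    ∑ s : Fin n → Fin N, F (num s) = ∑ α ∈ Finset.range (N ^ n), F α := by
  rw [Finset.sum_range]
  refine Fintype.sum_equiv finFunctionFinEquiv _ _ fun s => ?_
  rw [finFunctionFinEquiv_apply]
  rfl

theorem main (hN : 2 ≤ N) (n : ℕ) :
    (n : ℝ) / 2 - Real.logb N 4 ≤ Efin N n ∧
    Efin N n ≤ n / 2 + Real.logb N (4 * 2 ^ N.primeFactors.card + 2) := by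
  have hN1 : (1 : ℝ) < N := by exact_mod_cast (by omega : 1 < N)
  have hlN : 0 < Real.log N := Real.log_pos hN1
  have hX : 0 < N ^ n := pow_pos (by omega) n
  have hXR : (0 : ℝ) < (N : ℝ) ^ n := by positivity
  set X := N ^ n with hXdef
  have hXc : ((X : ℕ) : ℝ) = (N : ℝ) ^ n := by rw [hXdef]; push_cast; rfl
  have hl1 : ∀ s : Fin n → Fin N, (1 : ℝ) ≤ l1 ((X : ℕ) : ℤ) (num s) := fun s => by
    exact_mod_cast l1_pos (X := ((X : ℕ) : ℤ)) (α := num s) (by exact_mod_cast hX)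
  set K : ℝ := 2 ^ N.primeFactors.card with hK
  have hK1 : 1 ≤ K := one_le_pow₀ (by norm_num)
  -- the two bounds for every sequence
  have hlow : ∀ s : Fin n → Fin N, Real.logb N (l1 ((X : ℕ) : ℤ) (num s)) ≤ (lamFin s).toReal := by
    intro s
    have h1 := le_lamFin hN s
    have h2 := lamFin_le hN s
    have h3 : lamFin s ≠ ⊤ := ne_top_of_le_ne_top ENNReal.ofReal_ne_top h2
    have h4 := ENNReal.toReal_mono h3 h1
    rwa [ENNReal.toReal_ofReal (Real.logb_nonneg hN1 (hl1 s))] at h4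
  have hupp : ∀ s : Fin n → Fin N, (lamFin s).toReal ≤
      Real.logb N ((2 * K + 1) / 2) + n - Real.logb N (l1 ((X : ℕ) : ℤ) (num s)) := by
    intro s
    have h2 := ENNReal.toReal_mono ENNReal.ofReal_ne_top (lamFin_le hN s)
    have hl : (0 : ℝ) < l1 ((X : ℕ) : ℤ) (num s) := lt_of_lt_of_le one_pos (hl1 s)
    have e1 : Real.logb N ((2 * K + 1) / 2 * (N : ℝ) ^ n / l1 ((X : ℕ) : ℤ) (num s)) =
        Real.logb N ((2 * K + 1) / 2) + n - Real.logb N (l1 ((X : ℕ) : ℤ) (num s)) := by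
      rw [Real.logb_div (by positivity) hl.ne', Real.logb_mul (by positivity) hXR.ne',
        Real.logb_pow, Real.logb_self_eq_one hN1, mul_one]
    have h4 : (l1 ((X : ℕ) : ℤ) (num s) : ℝ) ≤ (N : ℝ) ^ n := by
      have h5 := l1_sq_le hX (num s : ℤ)
      have h6 : l1 ((X : ℕ) : ℤ) (num s) ≤ X :=
        (Nat.le_mul_of_pos_left _ (by exact_mod_cast hl)).trans h5
      rw [← hXc]
      exact_mod_cast h6
    have h3 : 0 ≤ Real.logb N ((2 * K + 1) / 2 * (N : ℝ) ^ n / l1 ((X : ℕ) : ℤ) (num s)) := by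
      apply Real.logb_nonneg hN1
      rw [one_le_div hl]
      nlinarith
    rw [ENNReal.toReal_ofReal h3, e1] at h2
    exact h2
  -- the sum of the logarithms
  have hS := sum_log_ge hX
  have hSb : (X : ℝ) * (n / 2 - Real.logb N 4) ≤
      ∑ s : Fin n → Fin N, Real.logb N (l1 ((X : ℕ) : ℤ) (num s)) := by
    have h1 := sum_seq (N := N) (n := n) (fun α => Real.logb N (l1 ((X : ℕ) : ℤ) (α : ℤ)))
    rw [h1]
    simp only [Real.logb]
    rw [← Finset.sum_div, le_div_iff₀ hlN]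
    refine le_trans (le_of_eq ?_) hS
    rw [hXc, Real.log_pow]
    field_simp
  have hcard : (Finset.univ : Finset (Fin n → Fin N)).card = X := by
    rw [Finset.card_univ, Fintype.card_fun, Fintype.card_fin, Fintype.card_fin]
  unfold Efin
  rw [← hXc]
  have hXR' : (0 : ℝ) < X := by exact_mod_cast hX
  constructor
  · rw [le_div_iff₀ hXR', mul_comm]
    exact hSb.trans (Finset.sum_le_sum fun s _ => hlow s)
  · rw [div_le_iff₀ hXR']
    refine (Finset.sum_le_sum fun s _ => hupp s).trans ?_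
    rw [Finset.sum_sub_distrib, Finset.sum_const, hcard, nsmul_eq_mul]
    have e2 : Real.logb N (4 * K + 2) = Real.logb N ((2 * K + 1) / 2) + Real.logb N 4 := by
      rw [← Real.logb_mul (by positivity) (by norm_num)]
      congr 1
      ring
    rw [e2]
    nlinarith

end Pool.Agent.J4H95.NA
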